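import Pool.Agent.H27.ZF.TA

/-!
Board zs (MP_52e316_nt), targets A (Mathlib only): to the right of the critical line the logarithm of almost all
L-functions of GL(m) is at most a power of the logarithm of the conductor.
-/

set_option autoImplicit false

namespace Pool.Agent.H68.ZS

open Pool.Agent.H27.ZF

/-- the size of the logarithm of the L-function at `s` -/
noncomputable def gx (e Y : ℝ) (s : ℂ) : ℝ := (1 + Real.log Y) ^ (max (3 / 2 - s.re) 0 + e)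

/-- all coefficients from `m` consecutive ones far out, sharp form -/
def T_LOS : Prop := ∀ (m : ℕ) (ρ : ℝ), 1 ≤ m → 1 < ρ → ∃ J0 : ℕ, 2 * m ≤ J0 ∧
  ∀ (J : ℕ) (h q : ℕ → ℂ) (B : ℝ), Inv m h q → 0 < B → J0 ≤ J →
  (∀ r, r < m → ‖h (J - r)‖ ≤ B ^ (J - r)) →
  ∀ k, ‖h k‖ ≤ ((m + k).choose k : ℝ) * (ρ * B) ^ k

/-- all local coefficients from the sums of squares, sharp form -/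
def T_LBS : Prop := ∀ (m : ℕ) (e : ℝ), 1 ≤ m → 0 < e → ∃ c Q0 : ℝ, 0 < c ∧ c ≤ 1 ∧ 1 ≤ Q0 ∧
  ∀ (lam : ℕ → ℂ) (q : ℕ → ℕ → ℂ) (Q : ℝ), Eul m lam q → Q0 ≤ Q → Sq lam Q (Q ^ (2 * c)) →
  ∀ p : ℕ, p.Prime → (p : ℝ) ^ (4 * m) ≤ Q → ∀ k : ℕ,
    ‖lam (p ^ k)‖ ≤ ((m + k).choose k : ℝ) * (p : ℝ) ^ (k * (1 / 2 + e))

/-- the logarithm of the inverse of a local factor with small roots -/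
def T_LFA : Prop := ∀ (m : ℕ) (θ0 : ℝ), 1 ≤ m → 0 ≤ θ0 → θ0 < 1 → ∃ C : ℝ, 0 < C ∧
  ∀ (h q : ℕ → ℂ) (x : ℂ) (θ : ℝ), Inv m h q → 0 ≤ θ → θ ≤ θ0 →
  (∀ k, ‖h k * x ^ k‖ ≤ ((m + k).choose k : ℝ) * θ ^ k) →
  0 < ‖qv m q x‖ ∧ |Real.log ‖qv m q x‖| ≤ C * θ

/-- the logarithm of the inverse of a local factor against its linear terms -/
def T_LQS : Prop := ∀ m : ℕ, 1 ≤ m → ∃ C : ℝ, 1 ≤ C ∧ ∀ (h q : ℕ → ℂ) (x : ℂ), Inv m h q →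
  (∀ k, 1 ≤ k → k ≤ m → ‖h k * x ^ k‖ ≤ 1 / C) →
  0 < ‖qv m q x‖ ∧ |Real.log ‖qv m q x‖ + (∑ k ∈ Finset.Icc 1 m, h k * x ^ k).re| ≤
    C * ∑ k ∈ Finset.Icc 1 m, ‖h k * x ^ k‖ ^ 2

/-- the middle primes of one block -/
def T_MIS : Prop := ∀ (m : ℕ) (d e B : ℝ), 1 ≤ m → 0 < d → d ≤ 1 / 2 → 0 < e → e < d → 1 ≤ B →
  ∃ c C z1 : ℝ, 0 < c ∧ 0 < C ∧ 1 ≤ z1 ∧ ∀ (lam : ℕ → ℂ) (q : ℕ → ℕ → ℂ) (Q z0 z : ℝ),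
  Eul m lam q → 1 ≤ Q → z1 ≤ z0 → z ^ (4 * m) ≤ Q → Sq lam Q (Q ^ (2 * c)) → ∀ s : ℂ,
  1 / 2 + d ≤ s.re → s.re ≤ B → Dp m lam Q z0 z (Q ^ c) s →
  ∀ j k : ℕ, 1 ≤ j → 1 ≤ k → k ≤ m →
    ‖∑ p ∈ UP z0 z j, lam (p ^ k) * (p : ℂ) ^ (-((k : ℂ) * s))‖ +
      ∑ p ∈ UP z0 z j, ‖lam (p ^ k) * (p : ℂ) ^ (-((k : ℂ) * s))‖ ^ 2 ≤
        C * Real.log Q * (2 : ℝ) ^ (-((j : ℝ) * (s.re - 1 / 2 - e)))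

/-- the logarithm of the product of the inverses of the local factors -/
def T_PRS : Prop := ∀ (m : ℕ) (d e B : ℝ), 1 ≤ m → 0 < d → d ≤ 1 / 2 → 0 < e → e < d → 1 ≤ B →
  ∃ c C Q0 : ℝ, 0 < c ∧ 0 < C ∧ 1 ≤ Q0 ∧ ∀ (lam : ℕ → ℂ) (q : ℕ → ℕ → ℂ) (Q : ℝ), Q0 ≤ Q →
  Eul m lam q → Sq lam Q (Q ^ (2 * c)) → ∀ z : ℝ, z ^ (4 * m) ≤ Q → ∀ s : ℂ, 1 / 2 + d ≤ s.re →
    s.re ≤ B → Dp m lam Q (Real.log Q) z (Q ^ c) s →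
    0 < ‖∏ p ∈ (Finset.range (⌊z⌋₊ + 1)).filter Nat.Prime, qv m (q p) ((p : ℂ) ^ (-s))‖ ∧
    |Real.log ‖∏ p ∈ (Finset.range (⌊z⌋₊ + 1)).filter Nat.Prime, qv m (q p) ((p : ℂ) ^ (-s))‖| ≤
      C * gx e Q s

/-- the logarithm of the L-function, all `s` with imaginary part `t` -/
def T_NZS : Prop := ∀ (m : ℕ) (d e C0 : ℝ), 1 ≤ m → 0 < d → d ≤ 1 / 2 → 0 < e → 1 ≤ C0 →
  ∃ c C B Q0 : ℝ, 0 < c ∧ 0 < C ∧ 1 ≤ B ∧ 1 ≤ Q0 ∧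
  ∀ (lam : ℕ → ℂ) (q : ℕ → ℕ → ℂ) (L : ℂ → ℂ) (Q t : ℝ), Q0 ≤ Q → Eul m lam q →
  (∀ n : ℕ, 1 ≤ n → ‖lam n‖ ≤ C0 * (n : ℝ) ^ m) → Differentiable ℂ L →
  (∀ s : ℂ, (m : ℝ) + 2 < s.re →
    HasSum (fun n : ℕ => if 1 ≤ n then lam n * (n : ℂ) ^ (-s) else 0) (L s)) →
  Sq lam Q (Q ^ (2 * c)) →
  (∀ s : ℂ, 1 / 2 + d / 2 ≤ s.re → s.re ≤ B → |s.im - t| ≤ B →
    ‖L s‖ ≤ Q ^ c ∧ Dp m lam Q (Real.log Q) (Q ^ (1 / (4 * (m : ℝ)))) (Q ^ c) s) →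
  ∀ s : ℂ, 1 / 2 + d ≤ s.re → s.im = t →
    Real.exp (-(C * gx e Q s)) ≤ ‖L s‖ ∧ ‖L s‖ ≤ Real.exp (C * gx e Q s)

end Pool.Agent.H68.ZS
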